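import Pool.Agent.Q262.CycFinal

set_option autoImplicit false

namespace Pool.Agent.Results.MP_b384de_nt.DivisibleByP

open Q262.Hgt

/-- For all primes `p < q` and every `b ≥ 1`, the largest height `B(p q^b)` of a divisor of
`X^{p q^b} - 1` in `ℤ[X]` is divisible by `p`. -/
theorem result (p q b : ℕ) (hp : p.Prime) (hq : q.Prime) (hpq : p < q) (hb : 1 ≤ b) :
    IsGreatest (divisorHeights (p * q ^ b)) (maxDivisorHeight (p * q ^ b)) ∧
      p ∣ maxDivisorHeight (p * q ^ b) := by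
  refine ⟨isGreatest_maxDivisorHeight _ (Nat.mul_pos hp.pos (pow_pos hq.pos _)), ?_⟩
  obtain ⟨c, rfl⟩ : ∃ c, b = c + 1 := ⟨b - 1, by omega⟩
  rw [maxDivisorHeight_eq hp hq hpq]
  exact dvd_mul_right _ _

end Pool.Agent.Results.MP_b384de_nt.DivisibleByP
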